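import Pool.Agent.Helper36.LX.Sheet

/-!
# MP_665203, row COO of the project LX: coordinates of a point of the hull of almost orthonormal
vectors
-/

set_option autoImplicit false

open MeasureTheory Metric Set Filter Topology
open scoped ENNReal NNReal

namespace H11ST
namespace LX
open LG

namespace C55

theorem hull_rep {d n : ℕ} (p : Fin n → E d) (v : E d) (hv : v ∈ Hu p) :
    ∃ lam : Fin n → ℝ, (∀ k, 0 ≤ lam k) ∧ ∑ k, lam k = 1 ∧ v = ∑ k, lam k • p k := by
  have hsub : range p ⊆ {w : E d | ∃ lam : Fin n → ℝ, (∀ k, 0 ≤ lam k) ∧ ∑ k, lam k = 1 ∧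
      w = ∑ k, lam k • p k} := by
    rintro _ ⟨i, rfl⟩
    refine ⟨fun k => if k = i then 1 else 0, fun k => ?_, ?_, ?_⟩
    · dsimp only
      split_ifs <;> norm_num
    · simp
    · simp
  have hconv : Convex ℝ {w : E d | ∃ lam : Fin n → ℝ, (∀ k, 0 ≤ lam k) ∧ ∑ k, lam k = 1 ∧
      w = ∑ k, lam k • p k} := by
    rintro _ ⟨l1, h1, s1, rfl⟩ _ ⟨l2, h2, s2, rfl⟩ a b ha hb hab
    refine ⟨fun k => a * l1 k + b * l2 k, fun k => ?_, ?_, ?_⟩
    · exact add_nonneg (mul_nonneg ha (h1 k)) (mul_nonneg hb (h2 k))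
    · rw [Finset.sum_add_distrib, ← Finset.mul_sum, ← Finset.mul_sum, s1, s2]
      linarith
    · rw [Finset.smul_sum, Finset.smul_sum, ← Finset.sum_add_distrib]
      refine Finset.sum_congr rfl fun k _ => ?_
      rw [add_smul, mul_smul, mul_smul]
  exact convexHull_min hsub hconv hv

end C55

theorem coo : LX_COO := by
  intro d n p hp
  have he : (0 : ℝ) < e0 := by unfold e0; norm_num
  have he1 : e0 < 1 / 10 := by unfold e0; norm_num
  refine ⟨fun i => ⟨?_, fun k hk => ?_⟩, fun v hv => ?_⟩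
  · unfold co
    rw [real_inner_self_eq_norm_sq, hp.nrm i]
    rw [max_eq_left (by linarith)]
    norm_num
  · unfold co
    have h := (abs_le.mp (hp.orth i k (Ne.symm hk))).2
    exact max_eq_right (by linarith)
  obtain ⟨lam, h0, h1, rfl⟩ := C55.hull_rep p v hv
  set v : E d := ∑ k, lam k • p k with hvdef
  have hl1 : ∀ k, lam k ≤ 1 := fun k => by
    rw [← h1]
    exact Finset.single_le_sum (fun j _ => h0 j) (Finset.mem_univ k)
  have hin : ∀ k, inner ℝ v (p k) = ∑ j, lam j * inner ℝ (p j) (p k) := fun k => by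
    rw [hvdef, sum_inner]
    refine Finset.sum_congr rfl fun j _ => ?_
    rw [real_inner_smul_left]
  have hdiff : ∀ k, |inner ℝ v (p k) - lam k| ≤ e0 * (1 - lam k) := fun k => by
    have e1 : inner ℝ v (p k) - lam k =
        ∑ j ∈ Finset.univ.erase k, lam j * inner ℝ (p j) (p k) := by
      rw [hin k, ← Finset.add_sum_erase _ _ (Finset.mem_univ k), real_inner_self_eq_norm_sq,
        hp.nrm k]
      ring
    have e2 : 1 - lam k = ∑ j ∈ Finset.univ.erase k, lam j := by
      rw [← h1, ← Finset.add_sum_erase _ _ (Finset.mem_univ k)]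
      ring
    rw [e1, e2, Finset.mul_sum]
    refine (Finset.abs_sum_le_sum_abs _ _).trans (Finset.sum_le_sum fun j hj => ?_)
    rw [abs_mul, abs_of_nonneg (h0 j), mul_comm]
    exact mul_le_mul_of_nonneg_right (hp.orth j k (Finset.ne_of_mem_erase hj)) (h0 j)
  have hc0 : ∀ k, 0 ≤ co p v k := fun k => le_max_right _ _
  have hcle : ∀ k, co p v k ≤ lam k * (1 - e0) := fun k => by
    refine max_le ?_ (mul_nonneg (h0 k) (by linarith))
    have := (abs_le.mp (hdiff k)).2
    nlinarith [h0 k]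
  have hcle' : ∀ k, co p v k ≤ lam k := fun k => by
    have := hcle k
    nlinarith [h0 k]
  have hlo : ∀ k, -e0 ≤ inner ℝ v (p k) := fun k => by
    have := (abs_le.mp (hdiff k)).1
    nlinarith [h0 k, hl1 k]
  have hic : ∀ k, inner ℝ v (p k) ≤ co p v k + e0 := fun k => by
    have := le_max_left (inner ℝ v (p k) - e0) 0
    unfold co
    linarith
  have hcne : ∀ k, co p v k ≠ 0 → inner ℝ v (p k) = co p v k + e0 := fun k hk => by
    unfold co at hk ⊢
    rcases le_total (inner ℝ v (p k) - e0) 0 with h | h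
    · exact absurd (max_eq_right h) hk
    · rw [max_eq_left h]
      ring
  have hlc : ∀ k, lam k ≤ co p v k + 2 * e0 := fun k => by
    have h2 := (abs_le.mp (hdiff k)).1
    have h3 := hic k
    nlinarith [h0 k]
  have hsumc : ∑ k, co p v k ≤ 1 := by
    rw [← h1]
    exact Finset.sum_le_sum fun k _ => hcle' k
  have hnsq : ‖v‖ ^ 2 = ∑ k, lam k * inner ℝ v (p k) := by
    rw [← real_inner_self_eq_norm_sq]
    conv_lhs => rw [hvdef]
    rw [sum_inner]
    refine Finset.sum_congr rfl fun k _ => ?_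
    rw [real_inner_smul_left, real_inner_comm]
  refine ⟨?_, hc0, hsumc, fun k => ?_, fun k => ?_, hcne, ?_, ?_⟩
  · refine (norm_sum_le _ _).trans ?_
    rw [← h1]
    refine Finset.sum_le_sum fun k _ => ?_
    rw [norm_smul, hp.nrm k, mul_one, Real.norm_eq_abs, abs_of_nonneg (h0 k)]
  · have := hcle k
    nlinarith [hl1 k, h0 k]
  · by_cases hk : co p v k = 0
    · rw [hk, sub_zero]
      refine abs_le.mpr ⟨hlo k, ?_⟩
      have := hic k
      rw [hk] at this
      linarith
    · rw [hcne k hk]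
      have e : co p v k + e0 - co p v k = e0 := by ring
      rw [e, abs_of_pos he]
  · rw [hnsq]
    have e1 : ∑ k, co p v k ^ 2 - e0 = ∑ k, (co p v k ^ 2 - e0 * lam k) := by
      rw [Finset.sum_sub_distrib, ← Finset.mul_sum, h1, mul_one]
    rw [e1]
    refine Finset.sum_le_sum fun k _ => ?_
    by_cases hk : co p v k = 0
    · rw [hk]
      nlinarith [hlo k, h0 k]
    · rw [hcne k hk]
      nlinarith [hcle' k, hc0 k, h0 k]
  · rw [hnsq]
    have e1 : ∑ k, lam k * inner ℝ v (p k) ≤
        ∑ k, (co p v k ^ 2 + 2 * e0 * co p v k + e0 * lam k) := by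
      refine Finset.sum_le_sum fun k _ => ?_
      have a1 := mul_le_mul_of_nonneg_left (hic k) (h0 k)
      have a2 := mul_le_mul_of_nonneg_right (hlc k) (hc0 k)
      nlinarith
    refine e1.trans ?_
    rw [Finset.sum_add_distrib, Finset.sum_add_distrib, ← Finset.mul_sum, ← Finset.mul_sum, h1]
    nlinarith

end LX
end H11ST
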